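import Mathlib
import Pool.Agent.Lib.MP_563419_an.Defs
import Pool.Agent.Lib.MP_563419_an.Ins.Spaces
import Pool.Agent.Lib.MP_563419_an.Ins.HypX
import Pool.Agent.Lib.MP_563419_an.Ins.NoExt
import Pool.Agent.Lib.MP_563419_an.Ins.Ext

set_option autoImplicit false

open Sum Pool.Agent.Lib.MP_563419_an Pool.Agent.Lib.MP_563419_an.Iso

namespace Pool.Agent.Lib.MP_563419_an.Draft.IsotopicHypersurface

/-- Main result. For every `k ≥ 0` let `Z = Q × ℂ^(k+4)`, `Q = {p (1 - p) = q r}`, with coordinates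
`(p, q, r; x, y; z_0, ..., z_(k+1))`, and let `X = {x y = 1}` be a hypersurface of `Z`.

`Z` is an affine-algebraic manifold with the algebraic overshear density property, `X` is a
subvariety and an affine-algebraic manifold (smooth and irreducible),
`(p, q, r; x, y; z_0, z_1, ...) ↦ (p, q, r; x, y; x² z_0, z_1, ...)` is an algebraic automorphism `φ`
of `X`, there is a real-analytic isotopy `H t` of `Z` from the identity to an extension of `φ`, but
no holomorphic automorphism of `Z` extends `φ`. -/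
theorem result (k : ℕ) :
    IsAffineManifold (Zset k) ∧ HasAOSDP (Zset k) ∧
      IsSubvariety (Xset k) (Zset k) ∧ IsAffineManifold (Xset k) ∧
      ∃ φ : Xset k ≃ Xset k, IsAlgebraicIso φ ∧
        (∀ (u : Xset k) (i : Idx k), (φ u : Idx k → ℂ) i =
          if i = inr (inr 0) then (u : Idx k → ℂ) (inr (inl 0)) ^ 2 * (u : Idx k → ℂ) i
          else (u : Idx k → ℂ) i) ∧
        (∃ H : ℝ → Zset k ≃ Zset k, IsAnalyticIsotopy H ∧ H 0 = Equiv.refl (Zset k) ∧
          Extends (H 1) φ) ∧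
        ∀ Φ : Zset k ≃ Zset k, IsHolomorphicAut Φ → ¬ Extends Φ φ :=
  ⟨manifold_Z k, aosdp_Z k, ⟨algebraic_X k, X_sub_Z k⟩, manifold_X k, phi k, phi_alg k,
    fun _ _ => rfl, ⟨HH k, HH_isotopy k, HH_zero k, HH_phi k⟩, no_ext_X⟩

end Pool.Agent.Lib.MP_563419_an.Draft.IsotopicHypersurface
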